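import Pool.Agent.H51.EM.Targets

/-! Board `em_modules`, row DEGH: degree and length of the minors. -/

set_option autoImplicit false

namespace Pool.Agent.H68.EM.DEGH

open Pool.Agent.H51.EM Polynomial Finset
open Pool.Agent.H51.EI (Disc toC ev plen rts vv ResP FR RP FTI phq thq KK KX)
open Pool.Agent.H25.EE (Idx Ix s0 s1 EX bN T_EXB T_SUMS)

variable {O : Subring ℂ}

private lemma plen_eq (P : (↥O)[X]) (S : Finset ℕ) (h : P.support ⊆ S) :
    plen P = ∑ i ∈ S, ‖(P.coeff i : ℂ)‖ := by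
  unfold plen
  apply Finset.sum_subset h
  intro i _ hi
  rw [Polynomial.notMem_support_iff] at hi
  rw [hi]; simp

private lemma plen_nonneg (P : (↥O)[X]) : 0 ≤ plen P :=
  Finset.sum_nonneg fun _ _ => norm_nonneg _

private lemma plen_zero : plen (0 : (↥O)[X]) = 0 := by simp [plen]

private lemma plen_neg (P : (↥O)[X]) : plen (-P) = plen P := by
  simp [plen]

private lemma plen_one : plen (1 : (↥O)[X]) = 1 := by
  have h : (1 : (↥O)[X]).support ⊆ {0} := by
    intro i hi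
    rw [Polynomial.mem_support_iff, Polynomial.coeff_one] at hi
    simp only [Finset.mem_singleton]
    by_contra hne
    exact hi (if_neg hne)
  rw [plen_eq 1 {0} h]; simp

private lemma plen_monomial (n : ℕ) (a : O) : plen (monomial n a) = ‖(a : ℂ)‖ := by
  rw [plen_eq _ {n} (Polynomial.support_monomial_subset n a)]
  simp

private lemma plen_add (P Q : (↥O)[X]) : plen (P + Q) ≤ plen P + plen Q := by
  rw [plen_eq (P + Q) (P.support ∪ Q.support) Polynomial.support_add,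
    plen_eq P (P.support ∪ Q.support) Finset.subset_union_left,
    plen_eq Q (P.support ∪ Q.support) Finset.subset_union_right, ← Finset.sum_add_distrib]
  apply Finset.sum_le_sum
  intro i _
  rw [Polynomial.coeff_add]
  push_cast
  exact norm_add_le _ _

private lemma plen_sum {ι : Type*} (s : Finset ι) (f : ι → (↥O)[X]) :
    plen (∑ i ∈ s, f i) ≤ ∑ i ∈ s, plen (f i) := by
  classical
  induction s using Finset.induction_on with
  | empty => simp [plen_zero]
  | insert a s ha ih =>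
    rw [Finset.sum_insert ha, Finset.sum_insert ha]
    exact (plen_add _ _).trans (by linarith)

private lemma plen_mul (P Q : (↥O)[X]) : plen (P * Q) ≤ plen P * plen Q := by
  rw [Polynomial.mul_eq_sum_sum]
  refine (plen_sum _ _).trans ?_
  unfold Polynomial.sum
  calc ∑ i ∈ P.support, plen (∑ j ∈ Q.support, (monomial (i + j)) (P.coeff i * Q.coeff j))
      ≤ ∑ i ∈ P.support, ∑ j ∈ Q.support, ‖(P.coeff i : ℂ)‖ * ‖(Q.coeff j : ℂ)‖ := by
        apply Finset.sum_le_sum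
        intro i _
        refine (plen_sum _ _).trans (Finset.sum_le_sum fun j _ => ?_)
        rw [plen_monomial]
        push_cast
        rw [norm_mul]
    _ = plen P * plen Q := by
        unfold plen
        rw [Finset.sum_mul_sum]

private lemma plen_prod {ι : Type*} (s : Finset ι) (f : ι → (↥O)[X]) :
    plen (∏ i ∈ s, f i) ≤ ∏ i ∈ s, plen (f i) := by
  classical
  induction s using Finset.induction_on with
  | empty => simp [plen_one]
  | insert a s ha ih =>
    rw [Finset.prod_insert ha, Finset.prod_insert ha]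
    exact (plen_mul _ _).trans (mul_le_mul_of_nonneg_left ih (plen_nonneg _))

/-- degree and length of a determinant -/
private lemma det_bound {ι : Type} [Fintype ι] [DecidableEq ι] (M : Matrix ι ι (↥O)[X])
    (N : ℕ) (B : ℝ) (hN : ∀ σ : Equiv.Perm ι, ∑ i, (M (σ i) i).natDegree ≤ N)
    (hB : ∀ σ : Equiv.Perm ι, ∏ i, plen (M (σ i) i) ≤ B) :
    M.det.natDegree ≤ N ∧ plen M.det ≤ (Fintype.card ι).factorial * B := by
  rw [Matrix.det_apply]
  constructor
  · apply Polynomial.natDegree_sum_le_of_forall_le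
    intro σ _
    have h1 : (∏ i, M (σ i) i).natDegree ≤ N :=
      (Polynomial.natDegree_prod_le _ _).trans (hN σ)
    rcases Int.units_eq_one_or (Equiv.Perm.sign σ) with h | h
    · rw [h, one_smul]; exact h1
    · rw [h, Units.neg_smul, one_smul, Polynomial.natDegree_neg]; exact h1
  · refine (plen_sum _ _).trans ?_
    calc ∑ σ : Equiv.Perm ι, plen (Equiv.Perm.sign σ • ∏ i, M (σ i) i)
        ≤ ∑ _σ : Equiv.Perm ι, B := by
          apply Finset.sum_le_sum
          intro σ _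
          have h1 : plen (∏ i, M (σ i) i) ≤ B := (plen_prod _ _).trans (hB σ)
          rcases Int.units_eq_one_or (Equiv.Perm.sign σ) with h | h
          · rw [h, one_smul]; exact h1
          · rw [h, Units.neg_smul, one_smul, plen_neg]; exact h1
      _ = (Fintype.card ι).factorial * B := by
          rw [Finset.sum_const, Finset.card_univ, Fintype.card_perm, nsmul_eq_mul]

/-- sum over the chosen columns -/
private lemma sum_col (S T : Finset Idx) (g : {a // a ∈ S} → {b // b ∈ T})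
    (hg : Function.Injective g) (f : Idx → ℝ) (hf : ∀ b, 0 ≤ f b) :
    ∑ a, f (g a).1 ≤ ∑ b ∈ T, f b := by
  classical
  rw [← Finset.sum_coe_sort T f]
  rw [← Finset.sum_image (s := univ) (g := g) (f := fun b : {b // b ∈ T} => f b.1)
    (fun a _ b _ h => hg h)]
  exact Finset.sum_le_sum_of_subset_of_nonneg (Finset.subset_univ _) fun b _ _ => hf _

theorem pf_DEGH (hLEN : T_LEN) (hEXB : Pool.Agent.H25.EE.T_EXB) (hCARD : Pool.Agent.H51.EI.T_CARD)
    (hSUMS : Pool.Agent.H25.EE.T_SUMS) : T_DEGH := by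
  intro O X0 π
  obtain ⟨C, hC, hL⟩ := hLEN O X0 π
  have hqN : 1 ≤ qq π := by
    unfold qq
    exact Nat.one_le_pow _ _ π.hr
  set q : ℝ := (qq π : ℝ) with hq
  have hq1 : 1 ≤ q := by rw [hq]; exact_mod_cast hqN
  have hq0 : 0 < q := by linarith
  set i : ℝ := q⁻¹ with hi
  have hi0 : 0 < i := by positivity
  have hqi : q * i = 1 := mul_inv_cancel₀ hq0.ne'
  have hi1 : i ≤ 1 := inv_le_one_of_one_le₀ hq1
  -- threshold
  refine ⟨max (10 ^ 6 * qq π) (⌈Real.exp (C * q * 10 ^ 8)⌉₊), ?_⟩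
  intro J hJ u v hval g hg
  have hJ6q : 10 ^ 6 * qq π ≤ J := le_trans (le_max_left _ _) hJ
  have hJ6 : 10 ^ 6 ≤ J := le_trans (Nat.le_mul_of_pos_right _ hqN) hJ6q
  have hJC : Real.exp (C * q * 10 ^ 8) ≤ (J : ℝ) :=
    (Nat.le_ceil _).trans (by exact_mod_cast le_trans (le_max_right _ _) hJ)
  have hJ1 : 1 ≤ J := le_trans (by norm_num) hJ6
  have hJ2 : 2 ≤ J := le_trans (by norm_num) hJ6
  have hJR : (10 : ℝ) ^ 6 ≤ J := by exact_mod_cast hJ6
  have hJRq : (10 : ℝ) ^ 6 * q ≤ J := by rw [hq]; exact_mod_cast hJ6q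
  have hJ0 : (0 : ℝ) < J := lt_of_lt_of_le (by norm_num) hJR
  have hlogC : C * q * 10 ^ 8 ≤ Real.log J := by
    rw [Real.le_log_iff_exp_le hJ0]; exact hJC
  have hlog1 : 1 ≤ Real.log J := by
    rw [Real.le_log_iff_exp_le hJ0]
    have := Real.exp_one_lt_d9
    linarith
  have hqQ : (1 : ℚ) ≤ (qq π : ℚ) := by exact_mod_cast hqN
  -- sums
  obtain ⟨hr1, hr2⟩ := hSUMS (t0 π) J (by unfold t0 s0; positivity) (by
    unfold t0 s0
    rw [div_le_one (by linarith)]
    linarith) hJ1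
  obtain ⟨hc1, hc2⟩ := hSUMS (t1 π) J (by unfold t1 s1; positivity) (by
    unfold t1 s1
    rw [div_le_one (by linarith)]
    linarith) hJ1
  have hcard : ((Ix (t0 π) J).card : ℝ) ≤ 2 / 1125 * (J : ℝ) ^ 4 * i := by
    have := (hCARD (qq π) hqN).1 J hJ1
    rw [← hq, div_eq_mul_inv _ q, ← hi] at this
    exact this
  have hcardI : (Fintype.card {a // a ∈ Ix (t0 π) J} : ℝ) = ((Ix (t0 π) J).card : ℝ) := by
    rw [Fintype.card_coe]
  have hs0 : ((t0 π : ℚ) : ℝ) = 1 / 1000 * i := by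
    unfold t0 s0
    push_cast
    rw [← hq, div_eq_mul_inv _ q, ← hi]
  have hs1 : ((t1 π : ℚ) : ℝ) = 1001 / 1000000 * i := by
    unfold t1 s1
    push_cast
    rw [← hq, div_eq_mul_inv _ q, ← hi]
  rw [hs0] at hr1 hr2
  rw [hs1] at hc1 hc2
  -- the sum over the rows does not depend on the permutation
  have hrow : ∀ (f : Idx → ℝ) (σ : Equiv.Perm {a // a ∈ Ix (t0 π) J}),
      ∑ i, f (σ i).1 = ∑ a ∈ Ix (t0 π) J, f a := by
    intro f σ
    rw [← Finset.sum_coe_sort (Ix (t0 π) J) f]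
    exact Equiv.sum_comp σ (fun i : {a // a ∈ Ix (t0 π) J} => f i.1)
  have hcol : ∀ (f : Idx → ℝ), (∀ b, 0 ≤ f b) →
      ∑ i, f (g i).1 ≤ ∑ b ∈ Ix (t1 π) J, f b := fun f hf =>
    sum_col (Ix (t0 π) J) (Ix (t1 π) J) g hg f hf
  have hP6 : (0 : ℝ) < (J : ℝ) ^ 6 := by positivity
  have hP4 : (0 : ℝ) < (J : ℝ) ^ 4 := by positivity
  have hJJ : (10 : ℝ) ^ 12 * q ≤ (J : ℝ) ^ 2 := by
    calc (10 : ℝ) ^ 12 * q = (10 : ℝ) ^ 6 * ((10 : ℝ) ^ 6 * q) := by ring
      _ ≤ (J : ℝ) * (J : ℝ) := by gcongr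
      _ = (J : ℝ) ^ 2 := by ring
  have h64 : (10 : ℝ) ^ 12 * (J : ℝ) ^ 4 * q ≤ (J : ℝ) ^ 6 := by
    calc (10 : ℝ) ^ 12 * (J : ℝ) ^ 4 * q = ((10 : ℝ) ^ 12 * q) * (J : ℝ) ^ 4 := by ring
      _ ≤ (J : ℝ) ^ 2 * (J : ℝ) ^ 4 := by gcongr
      _ = (J : ℝ) ^ 6 := by ring
  have h64' : (10 : ℝ) ^ 12 * (J : ℝ) ^ 4 ≤ (J : ℝ) ^ 6 := by
    refine le_trans ?_ h64
    exact le_mul_of_one_le_right (by positivity) hq1
  -- degree
  have hdeg : ∀ σ : Equiv.Perm {a // a ∈ Ix (t0 π) J},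
      ((∑ i, (mm π u v J (σ i).1 (g i).1).natDegree : ℕ) : ℝ) ≤ bN J / q := by
    intro σ
    have h1 : ((∑ i, (mm π u v J (σ i).1 (g i).1).natDegree : ℕ) : ℝ) ≤
        ∑ i : {a // a ∈ Ix (t0 π) J}, ((q * ((σ i).1.2 : ℝ) + ((((σ i).1.1.1 : ℝ)) ^ 2 +
          ((σ i).1.1.2 : ℝ) ^ 2)) + (q * ((g i).1.2 : ℝ) + ((((g i).1.1.1 : ℝ)) ^ 2 +
          ((g i).1.1.2 : ℝ) ^ 2)) + 1) := by
      push_cast
      apply Finset.sum_le_sum
      intro i _
      have h2 := (hL J hJ2 u v hval (σ i).1 (σ i).2 (g i).1 (g i).2).1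
      have h3 := hEXB (σ i).1 (g i).1
      have h4 : ((mm π u v J (σ i).1 (g i).1).natDegree : ℝ) ≤
          q * ((σ i).1.2 + (g i).1.2) + (EX (σ i).1 (g i).1 : ℝ) := by
        rw [hq]
        exact_mod_cast h2
      linarith
    rw [Finset.sum_add_distrib, Finset.sum_add_distrib] at h1
    have h5 := hrow (fun a => q * (a.2 : ℝ) + (((a.1.1 : ℝ)) ^ 2 + (a.1.2 : ℝ) ^ 2)) σ
    have h6 := hcol (fun a => q * (a.2 : ℝ) + (((a.1.1 : ℝ)) ^ 2 + (a.1.2 : ℝ) ^ 2))
      (fun b => by positivity)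
    rw [Finset.sum_add_distrib (s := Ix (t0 π) J), ← Finset.mul_sum] at h5
    rw [Finset.sum_add_distrib (s := Ix (t1 π) J), ← Finset.mul_sum] at h6
    have h7 : ∑ _i : {a // a ∈ Ix (t0 π) J}, (1 : ℝ) = ((Ix (t0 π) J).card : ℝ) := by
      rw [Finset.sum_const, Finset.card_univ, Fintype.card_coe, nsmul_eq_mul, mul_one]
    rw [h7] at h1
    rw [h5] at h1
    have k1 : q * ∑ a ∈ Ix (t0 π) J, (a.2 : ℝ) ≤
        i * ((1 / 1000 : ℝ) ^ 2 * (128 / 225) * (J : ℝ) ^ 6) := by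
      calc q * ∑ a ∈ Ix (t0 π) J, (a.2 : ℝ)
          ≤ q * ((1 / 1000 * i) ^ 2 * (128 / 225) * (J : ℝ) ^ 6) :=
            mul_le_mul_of_nonneg_left hr2 hq0.le
        _ = (q * i) * (i * ((1 / 1000 : ℝ) ^ 2 * (128 / 225) * (J : ℝ) ^ 6)) := by ring
        _ = _ := by rw [hqi, one_mul]
    have k2 : q * ∑ a ∈ Ix (t1 π) J, (a.2 : ℝ) ≤
        i * ((1001 / 1000000 : ℝ) ^ 2 * (128 / 225) * (J : ℝ) ^ 6) := by
      calc q * ∑ a ∈ Ix (t1 π) J, (a.2 : ℝ)
          ≤ q * ((1001 / 1000000 * i) ^ 2 * (128 / 225) * (J : ℝ) ^ 6) :=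
            mul_le_mul_of_nonneg_left hc2 hq0.le
        _ = (q * i) * (i * ((1001 / 1000000 : ℝ) ^ 2 * (128 / 225) * (J : ℝ) ^ 6)) := by ring
        _ = _ := by rw [hqi, one_mul]
    have k3 : i * ((10 : ℝ) ^ 12 * (J : ℝ) ^ 4) ≤ i * (J : ℝ) ^ 6 :=
      mul_le_mul_of_nonneg_left h64' hi0.le
    have k4 : bN J / q = i * (2849 / 2000000 * (J : ℝ) ^ 6) := by
      unfold bN
      rw [div_eq_mul_inv, ← hi]
      ring
    have k5 : 0 < i * (J : ℝ) ^ 6 := by positivity
    rw [k4]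
    linarith
  -- product of the lengths
  set B : ℝ := Real.exp (((1 / 1000 : ℝ) ^ 2 + (1001 / 1000000 : ℝ) ^ 2) * (128 / 225) *
    (i ^ 2 * (J : ℝ) ^ 6) * Real.log J +
    2 / 1125 * (J : ℝ) ^ 4 * i * (C * (J : ℝ) ^ 2) +
    2 / 1125 * (J : ℝ) ^ 4 * i * (1 / 10 ^ 11 * i * (J : ℝ) ^ 2 * Real.log J)) with hBdef
  have hiq : (1 : ℝ) / (10 ^ 11 * q) = 1 / 10 ^ 11 * i := by
    rw [hi]
    field_simp
  have hlen : ∀ σ : Equiv.Perm {a // a ∈ Ix (t0 π) J},
      ∏ i, plen (mm π u v J (σ i).1 (g i).1) ≤ B := by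
    intro σ
    calc ∏ i, plen (mm π u v J (σ i).1 (g i).1)
        ≤ ∏ k : {a // a ∈ Ix (t0 π) J}, Real.exp ((((σ k).1.2 : ℝ) + (g k).1.2) * Real.log J +
            C * (J : ℝ) ^ 2 + 1 / 10 ^ 11 * i * (J : ℝ) ^ 2 * Real.log J) := by
          apply Finset.prod_le_prod
          · intro k _; exact plen_nonneg _
          · intro k _
            have h := (hL J hJ2 u v hval (σ k).1 (σ k).2 (g k).1 (g k).2).2
            rw [hiq] at h
            exact h
      _ = Real.exp (∑ k : {a // a ∈ Ix (t0 π) J}, ((((σ k).1.2 : ℝ) + (g k).1.2) * Real.log J +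
            C * (J : ℝ) ^ 2 + 1 / 10 ^ 11 * i * (J : ℝ) ^ 2 * Real.log J)) := by
          rw [Real.exp_sum]
      _ ≤ B := by
          rw [hBdef]
          apply Real.exp_le_exp.mpr
          rw [Finset.sum_add_distrib, Finset.sum_add_distrib, ← Finset.sum_mul,
            Finset.sum_add_distrib]
          have h5 := hrow (fun a => (a.2 : ℝ)) σ
          have h6 := hcol (fun a => (a.2 : ℝ)) (fun b => by positivity)
          have h7 : ∑ _i : {a // a ∈ Ix (t0 π) J}, (C * (J : ℝ) ^ 2) =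
              ((Ix (t0 π) J).card : ℝ) * (C * (J : ℝ) ^ 2) := by
            rw [Finset.sum_const, Finset.card_univ, Fintype.card_coe, nsmul_eq_mul]
          have h7' : ∑ _k : {a // a ∈ Ix (t0 π) J},
              (1 / 10 ^ 11 * i * (J : ℝ) ^ 2 * Real.log J) =
              ((Ix (t0 π) J).card : ℝ) * (1 / 10 ^ 11 * i * (J : ℝ) ^ 2 * Real.log J) := by
            rw [Finset.sum_const, Finset.card_univ, Fintype.card_coe, nsmul_eq_mul]
          have h8' : ((Ix (t0 π) J).card : ℝ) * (1 / 10 ^ 11 * i * (J : ℝ) ^ 2 * Real.log J) ≤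
              2 / 1125 * (J : ℝ) ^ 4 * i * (1 / 10 ^ 11 * i * (J : ℝ) ^ 2 * Real.log J) :=
            mul_le_mul_of_nonneg_right hcard (by positivity)
          rw [h7, h7']
          have h8 : ((Ix (t0 π) J).card : ℝ) * (C * (J : ℝ) ^ 2) ≤
              2 / 1125 * (J : ℝ) ^ 4 * i * (C * (J : ℝ) ^ 2) :=
            mul_le_mul_of_nonneg_right hcard (by positivity)
          have h9 : (∑ i : {a // a ∈ Ix (t0 π) J}, ((σ i).1.2 : ℝ) +
              ∑ i : {a // a ∈ Ix (t0 π) J}, ((g i).1.2 : ℝ)) * Real.log J ≤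
              (((1 / 1000 : ℝ) ^ 2 + (1001 / 1000000 : ℝ) ^ 2) * (128 / 225) *
              (i ^ 2 * (J : ℝ) ^ 6)) * Real.log J := by
            apply mul_le_mul_of_nonneg_right _ (by linarith)
            rw [h5]
            linarith
          linarith
  -- the factorial
  have hfac : ((Fintype.card {a // a ∈ Ix (t0 π) J}).factorial : ℝ) ≤
      Real.exp (2 / 1125 * (J : ℝ) ^ 4 * i * (4 * Real.log J)) := by
    set L := Fintype.card {a // a ∈ Ix (t0 π) J} with hLdef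
    have hL4 : (L : ℝ) ≤ 2 / 1125 * (J : ℝ) ^ 4 * i := by rw [hcardI]; exact hcard
    have hL4' : (L : ℝ) ≤ (J : ℝ) ^ 4 := by
      have : (J : ℝ) ^ 4 * i ≤ (J : ℝ) ^ 4 := mul_le_of_le_one_right hP4.le hi1
      linarith
    calc ((L.factorial : ℕ) : ℝ) ≤ ((L ^ L : ℕ) : ℝ) := by
          exact_mod_cast Nat.factorial_le_pow L
      _ = (L : ℝ) ^ L := by push_cast; ring
      _ ≤ ((J : ℝ) ^ 4) ^ L := pow_le_pow_left₀ (by positivity) hL4' L
      _ = Real.exp ((L : ℝ) * (4 * Real.log J)) := by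
          rw [← Real.exp_log (show (0 : ℝ) < ((J : ℝ) ^ 4) ^ L by positivity), Real.log_pow,
            Real.log_pow]
          push_cast
          ring_nf
      _ ≤ Real.exp (2 / 1125 * (J : ℝ) ^ 4 * i * (4 * Real.log J)) := by
          apply Real.exp_le_exp.mpr
          exact mul_le_mul_of_nonneg_right hL4 (by linarith)
  -- the determinant
  obtain ⟨hd1, hd2⟩ := det_bound (Matrix.of fun a a' : {a // a ∈ Ix (t0 π) J} =>
      mm π u v J a.1 (g a').1) ⌊bN J / q⌋₊ B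
    (fun σ => Nat.le_floor (by simpa using hdeg σ))
    (fun σ => by simpa using hlen σ)
  refine ⟨?_, ?_⟩
  · have hb : (0 : ℝ) ≤ bN J / q := by unfold bN; positivity
    calc ((DD π u v J g).natDegree : ℝ) ≤ (⌊bN J / q⌋₊ : ℝ) := by
          unfold DD
          exact_mod_cast hd1
      _ ≤ bN J / q := Nat.floor_le hb
  · calc plen (DD π u v J g) ≤ (Fintype.card {a // a ∈ Ix (t0 π) J}).factorial * B := by
          unfold DD
          exact hd2
      _ ≤ Real.exp (2 / 1125 * (J : ℝ) ^ 4 * i * (4 * Real.log J)) * B :=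
          mul_le_mul_of_nonneg_right hfac (Real.exp_pos _).le
      _ ≤ Real.exp (1139 / 1000000000 * (J : ℝ) ^ 6 * Real.log J / q ^ 2) := by
          rw [hBdef, ← Real.exp_add]
          apply Real.exp_le_exp.mpr
          have e0 : 1139 / 1000000000 * (J : ℝ) ^ 6 * Real.log J / q ^ 2 =
              1139 / 1000000000 * (i ^ 2 * (J : ℝ) ^ 6 * Real.log J) := by
            rw [div_eq_mul_inv, hi, inv_pow]
            ring
          rw [e0]
          have e1 : 2 / 1125 * (J : ℝ) ^ 4 * i * (C * (J : ℝ) ^ 2) =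
              2 / 1125 * ((i ^ 2 * (J : ℝ) ^ 6) * (C * q)) := by
            calc 2 / 1125 * (J : ℝ) ^ 4 * i * (C * (J : ℝ) ^ 2)
                = 2 / 1125 * ((1 * i * (J : ℝ) ^ 6) * C) := by ring
              _ = 2 / 1125 * (((q * i) * i * (J : ℝ) ^ 6) * C) := by rw [hqi]
              _ = _ := by ring
          have e1' : 2 / 1125 * (J : ℝ) ^ 4 * i * (4 * Real.log J) =
              8 / 1125 * (i ^ 2 * ((J : ℝ) ^ 4 * q) * Real.log J) := by
            calc 2 / 1125 * (J : ℝ) ^ 4 * i * (4 * Real.log J)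
                = 8 / 1125 * ((1 * i * (J : ℝ) ^ 4) * Real.log J) := by ring
              _ = 8 / 1125 * (((q * i) * i * (J : ℝ) ^ 4) * Real.log J) := by rw [hqi]
              _ = _ := by ring
          have e1'' : 2 / 1125 * (J : ℝ) ^ 4 * i * (1 / 10 ^ 11 * i * (J : ℝ) ^ 2 *
              Real.log J) = 2 / 1125 * (1 / 10 ^ 11) * (i ^ 2 * (J : ℝ) ^ 6 * Real.log J) := by
            ring
          rw [e1, e1', e1'']
          have e2 : (i ^ 2 * (J : ℝ) ^ 6) * (C * q * 10 ^ 8) ≤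
              (i ^ 2 * (J : ℝ) ^ 6) * Real.log J :=
            mul_le_mul_of_nonneg_left hlogC (by positivity)
          have e3 : (i ^ 2 * ((10 : ℝ) ^ 12 * (J : ℝ) ^ 4 * q)) * Real.log J ≤
              (i ^ 2 * (J : ℝ) ^ 6) * Real.log J :=
            mul_le_mul_of_nonneg_right (mul_le_mul_of_nonneg_left h64 (by positivity))
              (by linarith)
          have e4 : 0 ≤ (i ^ 2 * (J : ℝ) ^ 6) * Real.log J := by positivity
          linarith

end Pool.Agent.H68.EM.DEGH
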