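import Pool.Agent.H92.EM.TC
import Pool.Agent.H4.EHD.EPL

/-! Row MPL of the board `emd_modules`: the estimate for the pull-backs. -/

set_option autoImplicit false

open MeasureTheory Pool.Agent.H92.EQ Pool.Agent.H92.EM

namespace Pool.Agent.H68.EM

open Pool.Agent.H62.EQ Pool.Agent.H57.EQ
open Pool.Agent.H4.EHD (slt slt_cons sl2)
open scoped BigOperators ComplexConjugate ContDiff Topology

theorem one_b (hMPG : T_MPG) (hMWH : T_MWH) (hKA : T_KA) (hKH : T_KH)
    (hP6 : T_P6) (hP7 : T_P7) (hD7 : T_D7) (hL3 : T_L3) (hL5 : T_L5)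
    (m k d M : ℕ) (F : Fin (k + 1 + 1) → MvPolynomial (Fin (k + 1 + 1)) ℂ)
    (P : MvPolynomial (Fin (k + 1 + 1)) ℂ) (hd : 2 ≤ d) (hF : IsM m d F)
    (hPh : P.IsHomogeneous M) (hM : 1 ≤ M) (b : Fin (k + 1 + 1)) (hb : (b : ℕ) < m)
    (hPx : ¬ MvPolynomial.X b ∣ P) :
    ∃ C : ℝ, ∀ (j : ℕ) (δ r : ℝ), 0 < δ → δ ≤ 1 → 0 < r → r ≤ 1 →
      EE F d j (TF k b δ) (fun z => -(1 / 2) * Real.log (nv P M z ^ 2 + r ^ 2)) ≤ C := by
  obtain ⟨hG, -, B, hB0, hB, -⟩ := hKA (k + 1 + 1) d F hd hF.isH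
  obtain ⟨B', hB'0, hWW⟩ := hMWH m (k + 1) d F hd hF
  obtain ⟨hW1, -, hW3, -, hB'⟩ := hWW b hb
  obtain ⟨C, hC⟩ := hMPG k M b P hPh hM hPx
  have hell : Pot (ell : (Fin (k + 1 + 1) → ℂ) → ℝ) := (hL3 (k + 1 + 1)).1
  have hom : ∀ p, ProjForm (om (k + 1 + 1) p) := fun p => (hD7 (k + 1 + 1) p).1
  have hM0 : (0 : ℝ) ≤ M := Nat.cast_nonneg M
  obtain ⟨μ, hμ⟩ : ∃ μ : ℝ, μ = mass (k + 1) (om (k + 1 + 1) 0) := ⟨_, rfl⟩
  refine ⟨C + M * (2 * B' * μ + k * (2 * B * μ)), fun j δ r hδ hδ1 hr hr1 => ?_⟩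
  have hw : Pot (we P M r) := hL5 (k + 1 + 1) M P r hM hPh hr
  obtain ⟨f, hf⟩ : ∃ f : (Fin (k + 1 + 1) → ℂ) → ℝ, f = fun z => ell z - we P M r z := ⟨_, rfl⟩
  have hH0 : Hom0 f := by
    rw [hf]
    exact ⟨hell.smooth.sub hw.smooth, fun l z hl hz => by
      rw [hell.loghom l z hl hz, hw.loghom l z hl hz]
      ring⟩
  obtain ⟨W, hW⟩ : ∃ W : (Fin (k + 1 + 1) → ℂ) → ℝ,
      W = fun z => (1 / (d : ℝ) ^ j) * wH b δ (ev (iter F j) z) := ⟨_, rfl⟩
  have hWP : Pot W := by rw [hW]; exact hW3 δ j hδ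
  -- absorbing Green potentials
  have habs : ∀ (p q : ℕ) (u : Fin q → (Fin (k + 1 + 1) → ℂ) → ℝ), (∀ i, Pot (u i)) →
      p + (q + 1) + 1 = k + 1 + 1 →
      pair f (Sn F d j (om (k + 1 + 1) (p + 1))) u =
        pair f (Sn F d j (om (k + 1 + 1) p))
          (Fin.cons (α := fun _ => (Fin (k + 1 + 1) → ℂ) → ℝ) (Gn F d j) u) := by
    intro p q u hu hpq
    have h1 := (hKH (k + 1 + 1) d p q j 0 F (om (k + 1 + 1) p) ell f u hd
      hpq hF.isH (hom p) hell hu hH0).2.2
    rw [Sn_zero, Nat.zero_add] at h1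
    exact h1.symm
  have hslt : ∀ (q : ℕ) (i : Fin (q + 1)), Pot (slt (Gn F d j) W q i) := by
    intro q i
    unfold slt
    split_ifs
    · exact hG j
    · exact hWP
  have main : ∀ p q : ℕ, p + q = k →
      pair f (Sn F d j (om (k + 1 + 1) p)) (slt (Gn F d j) W q) =
      pair f (om (k + 1 + 1) 0) (slt (Gn F d j) W k) := by
    intro p
    induction p with
    | zero =>
      intro q hq
      obtain rfl : q = k := by omega
      rw [Sn_om_zero]
    | succ p ih =>
      intro q hq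
      rw [habs p (q + 1) _ (hslt q) (by omega), slt_cons]
      exact ih (q + 1) (by omega)
  -- the first step
  have hE : EE F d j (TF k b δ) (fun z => -(1 / 2) * Real.log (nv P M z ^ 2 + r ^ 2)) =
      M * pair f (om (k + 1 + 1) 0) (slt (Gn F d j) W k) := by
    have h3 : EE F d j (TF k b δ) (fun z => -(1 / 2) * Real.log (nv P M z ^ 2 + r ^ 2)) =
        pair (fun z => M * f z) (Sn F d j (TF k b δ)) (fun _ : Fin 0 => ell) := by
      unfold EE
      apply pair_congr
      intro z hz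
      rw [phi_eq P hM r hr z hz, hf]
    rw [h3, pair_const_mul]
    congr 1
    have h4 := (hKH (k + 1 + 1) d k 0 j 0 F (om (k + 1 + 1) k) (wH b δ) f (fun _ : Fin 0 => ell) hd
      (by omega) hF.isH (hom k) (hW1 δ hδ) (fun i => i.elim0) hH0).2.2
    rw [Sn_zero, Nat.zero_add j] at h4
    have h5 : (Fin.cons (α := fun _ => (Fin (k + 1 + 1) → ℂ) → ℝ)
        (fun z => (1 / (d : ℝ) ^ j) * wH b δ (ev (iter F j) z)) (fun _ : Fin 0 => ell) :
        Fin 1 → (Fin (k + 1 + 1) → ℂ) → ℝ) = slt (Gn F d j) W 0 := by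
      funext i
      obtain ⟨i, hi⟩ := i
      obtain rfl : i = 0 := by omega
      rw [hW]
      simp [slt]
    rw [h5] at h4
    exact h4.symm.trans (main k 0 (by omega))
  -- replacing the potentials
  obtain ⟨δ', hδ'⟩ : ∃ δ' : ℝ, δ' = δ ^ (1 / (d : ℝ) ^ j) := ⟨_, rfl⟩
  have hδ'0 : 0 < δ' := by rw [hδ']; exact Real.rpow_pos_of_pos hδ _
  have hδ'1 : δ' ≤ 1 := by
    rw [hδ']
    exact Real.rpow_le_one hδ.le hδ1 (by positivity)
  have hW'P : Pot (wH (k := k + 1) b δ') := hW1 δ' hδ'0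
  have hs1 : |pair f (om (k + 1 + 1) 0) (slt (Gn F d j) W k) -
      pair f (om (k + 1 + 1) 0) (slt (Gn F d j) (wH b δ') k)| ≤ 2 * B' * μ := by
    have h := hP7 (k + 1 + 1) 0 (k + 1) (om (k + 1 + 1) 0) (slt (Gn F d j) W k) (Fin.last k)
      W (wH b δ') ell (we P M r) B' (by omega) (hom 0) (hslt k) hWP hW'P hell hw (fun z hz => by
        rw [hW, hδ']
        exact hB' δ hδ hδ1 j z hz)
    have e1 : Function.update (slt (Gn F d j) W k) (Fin.last k) W = slt (Gn F d j) W k := by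
      rw [Function.update_eq_self_iff]
      simp [slt]
    have e2 : Function.update (slt (Gn F d j) W k) (Fin.last k) (wH b δ') =
        slt (Gn F d j) (wH b δ') k := by
      funext i
      by_cases hi : i = Fin.last k
      · subst hi
        simp [slt]
      · rw [Function.update_of_ne hi]
        have : (i : ℕ) < k := by
          have h1 := i.2
          have h2 : (i : ℕ) ≠ k := fun h => hi (Fin.ext h)
          omega
        simp [slt, this]
    rw [e1, e2, ← hμ, ← hf] at h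
    exact h
  have hs2 : ∀ l : ℕ, l ≤ k → |pair f (om (k + 1 + 1) 0) (sl2 ell (Gn F d j) (wH b δ') k 0) -
      pair f (om (k + 1 + 1) 0) (sl2 ell (Gn F d j) (wH b δ') k l)| ≤ l * (2 * B * μ) := by
    intro l
    induction l with
    | zero =>
      intro _
      simp
    | succ l ih =>
      intro hl
      have h1 := ih (by omega)
      have hpot : ∀ i, Pot (sl2 ell (Gn F d j) (wH b δ') k l i) := by
        intro i
        unfold sl2
        split_ifs
        · exact hell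
        · exact hG j
        · exact hW'P
      have hlk : l < k + 1 := by omega
      have h := hP7 (k + 1 + 1) 0 (k + 1) (om (k + 1 + 1) 0) (sl2 ell (Gn F d j) (wH b δ') k l)
        ⟨l, hlk⟩ (Gn F d j) ell ell (we P M r) B (by omega) (hom 0) hpot (hG j) hell hell hw
        (fun z hz => hB j z hz)
      have e1 : Function.update (sl2 ell (Gn F d j) (wH b δ') k l) ⟨l, hlk⟩ (Gn F d j) =
          sl2 ell (Gn F d j) (wH b δ') k l := by
        rw [Function.update_eq_self_iff]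
        have : l < k := by omega
        simp [sl2, this]
      have e2 : Function.update (sl2 ell (Gn F d j) (wH b δ') k l) ⟨l, hlk⟩ ell =
          sl2 ell (Gn F d j) (wH b δ') k (l + 1) := by
        funext i
        by_cases hi : i = ⟨l, hlk⟩
        · subst hi
          simp [sl2]
        · rw [Function.update_of_ne hi]
          have h2 : (i : ℕ) ≠ l := fun h => hi (Fin.ext h)
          unfold sl2
          by_cases h3 : (i : ℕ) < l
          · rw [if_pos h3, if_pos (show (i : ℕ) < l + 1 by omega)]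
          · rw [if_neg h3, if_neg (show ¬ (i : ℕ) < l + 1 by omega)]
      rw [e1, e2, ← hμ, ← hf] at h
      have h3 := abs_sub_le (pair f (om (k + 1 + 1) 0) (sl2 ell (Gn F d j) (wH b δ') k 0))
        (pair f (om (k + 1 + 1) 0) (sl2 ell (Gn F d j) (wH b δ') k l))
        (pair f (om (k + 1 + 1) 0) (sl2 ell (Gn F d j) (wH b δ') k (l + 1)))
      push_cast
      linarith
  -- the form `TF k b δ'`
  have htau : ∀ p q : ℕ, p + q = k →
      pair f (om (k + 1 + 1) p) (slt ell (wH b δ') q) =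
      pair f (om (k + 1 + 1) 0) (slt ell (wH b δ') k) := by
    intro p
    induction p with
    | zero =>
      intro q hq
      obtain rfl : q = k := by omega
      rfl
    | succ p ih =>
      intro q hq
      have h := hP6 (k + 1 + 1) p (q + 1) (om (k + 1 + 1) p) ell (slt ell (wH b δ') q) f
      rw [slt_cons] at h
      exact h.trans (ih (q + 1) (by omega))
  have htau' : pair f (TF k b δ') (fun _ : Fin 0 => ell) =
      pair f (om (k + 1 + 1) 0) (slt ell (wH b δ') k) := by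
    have h := hP6 (k + 1 + 1) k 0 (om (k + 1 + 1) k) (wH b δ') (fun _ : Fin 0 => ell) f
    have h5 : (Fin.cons (α := fun _ => (Fin (k + 1 + 1) → ℂ) → ℝ)
        (wH b δ') (fun _ : Fin 0 => ell) :
        Fin 1 → (Fin (k + 1 + 1) → ℂ) → ℝ) = slt ell (wH b δ') 0 := by
      funext i
      obtain ⟨i, hi⟩ := i
      obtain rfl : i = 0 := by omega
      simp [slt]
    rw [h5] at h
    exact h.trans (htau k 0 (by omega))
  have hfin : M * pair f (TF k b δ') (fun _ : Fin 0 => ell) ≤ C := by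
    have h := hC δ' r hδ'0 hδ'1 hr hr1
    rw [← pair_const_mul]
    refine le_trans (le_of_eq ?_) h
    apply pair_congr
    intro z hz
    rw [phi_eq P hM r hr z hz, hf]
  have e0 : sl2 ell (Gn F d j) (wH b δ') k 0 = slt (Gn F d j) (wH b δ') k := by
    funext i
    simp [sl2, slt]
  have ek : sl2 ell (Gn F d j) (wH b δ') k k = slt ell (wH b δ') k := by
    funext i
    unfold sl2 slt
    by_cases h : (i : ℕ) < k
    · rw [if_pos h, if_pos h]
    · rw [if_neg h, if_neg h, if_neg h]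
  have hs3 := hs2 k le_rfl
  rw [e0, ek] at hs3
  rw [hE]
  have h1 := (abs_le.1 hs1).2
  have h2 := (abs_le.1 hs3).2
  rw [htau'] at hfin
  have h3 : pair f (om (k + 1 + 1) 0) (slt (Gn F d j) W k) ≤
      pair f (om (k + 1 + 1) 0) (slt ell (wH b δ') k) + (2 * B' * μ + k * (2 * B * μ)) := by
    linarith
  have h4 := mul_le_mul_of_nonneg_left h3 hM0
  rw [mul_add] at h4
  linarith

theorem pf_MPL (hMPG : T_MPG) (hMWH : T_MWH) (hPLI : T_PLI) (hKA : T_KA) (hKH : T_KH)
    (hP6 : T_P6) (hP7 : T_P7) (hD7 : T_D7) (hL3 : T_L3) (hL5 : T_L5) : T_MPL := by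
  intro m k d M F P _ hd hF hPh hM hP0 hPx
  obtain ⟨C0, hC0⟩ := hPLI (k + 1) d M F P hd hF.isH hPh hM hP0
  have hall : ∀ b : Fin (k + 1 + 1), ∃ C : ℝ, (b : ℕ) < m → ∀ (j : ℕ) (δ r : ℝ), 0 < δ →
      δ ≤ 1 → 0 < r → r ≤ 1 →
      EE F d j (TF k b δ) (fun z => -(1 / 2) * Real.log (nv P M z ^ 2 + r ^ 2)) ≤ C := by
    intro b
    by_cases hb : (b : ℕ) < m
    · obtain ⟨C, hC⟩ := one_b hMPG hMWH hKA hKH hP6 hP7 hD7 hL3 hL5 m k d M F P hd hF hPh hM b hb
        (hPx b hb)
      exact ⟨C, fun _ => hC⟩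
    · exact ⟨0, fun h => absurd h hb⟩
  choose C hC using hall
  refine ⟨|C0| + ∑ b, |C b|, fun j r hr hr1 => ⟨?_, fun b δ hb hδ hδ1 => ?_⟩⟩
  · have h1 := hC0 j r hr hr1
    have h2 : 0 ≤ ∑ b, |C b| := Finset.sum_nonneg fun b _ => abs_nonneg _
    have h3 := le_abs_self C0
    linarith
  · have h1 := hC b hb j δ r hδ hδ1 hr hr1
    have h2 : |C b| ≤ ∑ b, |C b| :=
      Finset.single_le_sum (f := fun b => |C b|) (fun b _ => abs_nonneg _) (Finset.mem_univ b)
    have h3 := le_abs_self (C b)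
    have h4 := abs_nonneg C0
    linarith

end Pool.Agent.H68.EM
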